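import Pool.Agent.helper11.CFL.Main
import Pool.Agent.helper13.CFL.DT
import Pool.Agent.helper16.CFL.MN
import Pool.Agent.helper16.CFL.PD
import Pool.Agent.helper16.CFL.LM
import Pool.Agent.helper62.CFL.RD
import Pool.Agent.helper88.CFL.TR
import Pool.Agent.helper98.CFL.VO

namespace Pool.Agent.helper11.CFL

theorem ZO_final : ZO_stmt := ZO_of TR DT PD MN Pool.Agent.helper98.CFL.VO LM

theorem FIN_final : FIN_stmt := fin_of ZO_final RD

end Pool.Agent.helper11.CFL
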