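import Pool.Agent.helper11.CFL.FlowR
import Pool.Agent.helper13.CFL.DT
import Pool.Agent.helper16.CFL.MN
import Pool.Agent.helper16.CFL.PD
import Pool.Agent.helper16.CFL.LM
import Pool.Agent.helper62.CFL.RD
import Pool.Agent.helper88.CFL.TR
import Pool.Agent.helper98.CFL.VO

namespace Pool.Agent.helper11.CFL

open Finset Matrix

theorem ZOR_final : ZOR_stmt := ZOR_of TR DT PD MN Pool.Agent.helper98.CFL.VO LM

theorem FINR_final : ∀ a b : ℕ, 0 < b → b ≤ a → ∀ n m : ℕ, ∀ ends : Fin m → Fin n × Fin n,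
    (∀ (p : ℕ) (π : Fin n → Fin p), Function.Surjective π →
      a * p ≤ b * (Finset.univ.filter
        (fun e : Fin m => π (ends e).1 ≠ π (ends e).2)).card + a) →
    ∃ f : Fin m → ℤ,
      (∀ e, (a : ℤ) - b ≤ |f e| ∧ |f e| ≤ (a : ℤ) + b) ∧
      ∀ v : Fin n,
        ∑ e ∈ Finset.univ.filter (fun e : Fin m => (ends e).1 = v), f e =
        ∑ e ∈ Finset.univ.filter (fun e : Fin m => (ends e).2 = v), f e := by
  intro a b hb hab n m ends h
  rcases Nat.eq_zero_or_pos n with hn | hn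
  · subst hn
    have hm : IsEmpty (Fin m) := ⟨fun e => (ends e).1.elim0⟩
    exact ⟨fun _ => 0, fun e => hm.elim e, fun v => v.elim0⟩
  have : Nonempty (Fin n) := ⟨⟨0, hn⟩⟩
  exact flowR_of ZOR_final RD (Fin n) (Fin m) (fun e => (ends e).1) (fun e => (ends e).2)
    a b hb hab h

end Pool.Agent.helper11.CFL
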