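import Pool.Agent.helper11.CFL.Spec

namespace Pool.Agent.helper11.CFL

open Finset Matrix

section basics

variable {V E : Type} [DecidableEq V] [Fintype E]

/-- integer divergence -/
def dvz (src tgt : E → V) (F : E → ℤ) (v : V) : ℤ :=
  ∑ e ∈ univ.filter (fun e => src e = v), F e - ∑ e ∈ univ.filter (fun e => tgt e = v), F e

theorem dv_cast (src tgt : E → V) (F : E → ℤ) (v : V) :
    dv src tgt (fun e => (F e : ℝ)) v = (dvz src tgt F v : ℝ) := by
  simp only [dv, dvz, inc, sum_filter, mul_sub, sum_sub_distrib]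
  push_cast
  simp only [mul_ite, mul_one, mul_zero]

theorem dv_add (src tgt : E → V) (f g : E → ℝ) (v : V) :
    dv src tgt (fun e => f e + g e) v = dv src tgt f v + dv src tgt g v := by
  simp only [dv, add_mul, sum_add_distrib]

theorem dv_smul (src tgt : E → V) (a : ℝ) (f : E → ℝ) (v : V) :
    dv src tgt (fun e => a * f e) v = a * dv src tgt f v := by
  simp only [dv, mul_sum]
  exact sum_congr rfl fun e _ => by ring

theorem sum_dv [Fintype V] (src tgt : E → V) (f : E → ℝ) : ∑ v, dv src tgt f v = 0 := by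
  simp only [dv, inc]
  rw [sum_comm]
  refine sum_eq_zero fun e _ => ?_
  rw [← mul_sum, sum_sub_distrib]
  simp

end basics

/-- the circular flow theorem, abstract form -/
theorem flow_of (hZO : ZO_stmt) (hRD : RD_stmt)
    (V E : Type) [Fintype V] [DecidableEq V] [Nonempty V] [Fintype E] [DecidableEq E]
    (src tgt : E → V) (k : ℕ)
    (hp : ∀ (p : ℕ) (π : V → Fin p), Function.Surjective π →
      (k + 1) * p ≤ (univ.filter (fun e => π (src e) ≠ π (tgt e))).card + (k + 1)) :
    ∃ F : E → ℤ, (∀ e, (k : ℤ) ≤ |F e| ∧ |F e| ≤ (k : ℤ) + 2) ∧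
      ∀ v, ∑ e ∈ univ.filter (fun e => src e = v), F e =
        ∑ e ∈ univ.filter (fun e => tgt e = v), F e := by
  classical
  set K : ℝ := (k : ℝ) + 1 with hK
  have hKpos : 0 < K := by positivity
  -- divergence of the all-ones function
  set a : V → ℤ := dvz src tgt (fun _ => 1) with ha
  have haR : ∀ v, dv src tgt (fun _ => (1 : ℝ)) v = a v := by
    intro v
    have := dv_cast src tgt (fun _ => (1 : ℤ)) v
    simpa using this
  have hsum : ∑ v, (K * (a v : ℝ)) = 0 := by
    rw [← mul_sum]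
    have h1 : ∑ v, (a v : ℝ) = ∑ v, dv src tgt (fun _ => (1 : ℝ)) v :=
      sum_congr rfl fun v _ => (haR v).symm
    rw [h1, sum_dv, mul_zero]
  obtain ⟨z, f, -, hf, hb⟩ := hZO V E src tgt (k + 1) (Nat.succ_pos k) hp
    (fun v => K * (a v : ℝ)) hsum
  have hf' : ∀ v, dv src tgt f v = K * ((a v : ℝ) + 2 * z v) := by
    intro v
    rw [hf v, hK]
    push_cast
    ring
  have hfb : ∀ e, -1 ≤ f e ∧ f e ≤ 1 := fun e => abs_le.mp (hb e)
  -- orientation
  obtain ⟨y, hy1, hy2⟩ := hRD V E src tgt (fun e => (1 / 2) * (K⁻¹ * f e + 1)) (by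
    intro v
    refine ⟨a v + z v, ?_⟩
    rw [dv_smul, dv_add, dv_smul, hf', haR]
    rw [← mul_assoc, inv_mul_cancel₀ hKpos.ne']
    push_cast
    ring)
  have hKi : 0 < K⁻¹ := inv_pos.mpr hKpos
  have hKi1 : K⁻¹ ≤ 1 := by
    apply inv_le_one_of_one_le₀
    rw [hK]
    have : (0 : ℝ) ≤ k := Nat.cast_nonneg k
    linarith
  have hy : ∀ e, y e = 0 ∨ y e = 1 := by
    intro e
    obtain ⟨h1, h2⟩ := hy1 e
    obtain ⟨h3, h4⟩ := hfb e
    have h5 : 0 ≤ (1 / 2) * (K⁻¹ * f e + 1) := by nlinarith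
    have h6 : (1 / 2) * (K⁻¹ * f e + 1) ≤ 1 := by nlinarith
    have h7 : (0 : ℤ) ≤ ⌊(1 / 2) * (K⁻¹ * f e + 1)⌋ := Int.floor_nonneg.mpr h5
    have h8 : ⌈(1 / 2) * (K⁻¹ * f e + 1)⌉ ≤ (1 : ℤ) := by
      apply Int.ceil_le.mpr
      simpa using h6
    omega
  have hdy : ∀ v, dv src tgt (fun e => (y e : ℝ)) v = (a v : ℝ) + z v := by
    intro v
    rw [hy2 v, dv_smul, dv_add, dv_smul, hf', haR]
    rw [← mul_assoc, inv_mul_cancel₀ hKpos.ne']
    ring
  -- the correction
  obtain ⟨g, hg1, hg2⟩ := hRD V E src tgt (fun e => (-1) * f e) (by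
    intro v
    refine ⟨-((k + 1) * (a v + 2 * z v)), ?_⟩
    rw [dv_smul, hf', hK]
    push_cast
    ring)
  have hg : ∀ e, -1 ≤ g e ∧ g e ≤ 1 := by
    intro e
    obtain ⟨h1, h2⟩ := hg1 e
    obtain ⟨h3, h4⟩ := hfb e
    have h7 : (-1 : ℤ) ≤ ⌊(-1) * f e⌋ := by
      apply Int.le_floor.mpr
      push_cast
      linarith
    have h8 : ⌈(-1) * f e⌉ ≤ (1 : ℤ) := by
      apply Int.ceil_le.mpr
      push_cast
      linarith
    omega
  have hdg : ∀ v, dv src tgt (fun e => (g e : ℝ)) v = - (K * ((a v : ℝ) + 2 * z v)) := by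
    intro v
    rw [hg2 v, dv_smul, hf']
    ring
  refine ⟨fun e => (k + 1) * (2 * y e - 1) + g e, fun e => ?_, fun v => ?_⟩
  · have hk0 : (0 : ℤ) ≤ k := Int.natCast_nonneg k
    obtain ⟨h1, h2⟩ := hg e
    show (k : ℤ) ≤ |((k : ℤ) + 1) * (2 * y e - 1) + g e| ∧
      |((k : ℤ) + 1) * (2 * y e - 1) + g e| ≤ (k : ℤ) + 2
    rcases hy e with h | h
    · rw [h]
      have h9 : ((k : ℤ) + 1) * (2 * 0 - 1) + g e = -((k : ℤ) + 1 - g e) := by ring
      rw [h9, abs_neg, abs_of_nonneg (by linarith)]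
      constructor <;> linarith
    · rw [h]
      have h9 : ((k : ℤ) + 1) * (2 * 1 - 1) + g e = ((k : ℤ) + 1 + g e) := by ring
      rw [h9, abs_of_nonneg (by linarith)]
      constructor <;> linarith
  · have h10 : (dvz src tgt (fun e => ((k : ℤ) + 1) * (2 * y e - 1) + g e) v : ℝ) = 0 := by
      rw [← dv_cast]
      have h11 : (fun e => ((((k : ℤ) + 1) * (2 * y e - 1) + g e : ℤ) : ℝ)) =
          fun e => (2 * K) * (y e : ℝ) + ((-K) * (fun _ => (1 : ℝ)) e + (g e : ℝ)) := by
        funext e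
        rw [hK]
        push_cast
        ring
      rw [h11, dv_add, dv_smul, dv_add, dv_smul, hdy, haR, hdg]
      ring
    have h12 : dvz src tgt (fun e => ((k : ℤ) + 1) * (2 * y e - 1) + g e) v = 0 := by
      exact_mod_cast h10
    unfold dvz at h12
    linarith

/-- edge connectivity implies the partition condition -/
theorem part_of_conn (V E : Type) [Fintype V] [DecidableEq V] [Fintype E] [DecidableEq E]
    (src tgt : E → V) (m : ℕ)
    (hc : ∀ S : Finset V, S.Nonempty → S ≠ univ →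
      2 * m ≤ (univ.filter (fun e => (src e ∈ S ∧ tgt e ∉ S) ∨ (src e ∉ S ∧ tgt e ∈ S))).card) :
    ∀ (p : ℕ) (π : V → Fin p), Function.Surjective π →
      m * p ≤ (univ.filter (fun e => π (src e) ≠ π (tgt e))).card + m := by
  intro p π hπ
  rcases Nat.lt_or_ge p 2 with h2 | h2
  · interval_cases p
    · simp
    · simp
  -- double count
  have key : ∑ i : Fin p, (univ.filter (fun e => (π (src e) = i ∧ π (tgt e) ≠ i) ∨
      (π (src e) ≠ i ∧ π (tgt e) = i))).card =
      2 * (univ.filter (fun e => π (src e) ≠ π (tgt e))).card := by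
    simp only [card_eq_sum_ones, sum_filter]
    rw [sum_comm, mul_sum]
    refine sum_congr rfl fun e _ => ?_
    by_cases h : π (src e) = π (tgt e)
    · simp only [h, ne_eq, not_true_eq_false, if_false, mul_zero]
      apply sum_eq_zero
      intro i _
      rw [if_neg]
      tauto
    · simp only [ne_eq, h, not_false_eq_true, if_true, mul_one]
      have h3 : ∀ i : Fin p, (if (π (src e) = i ∧ ¬ π (tgt e) = i) ∨
          (¬ π (src e) = i ∧ π (tgt e) = i) then (1 : ℕ) else 0) =
          (if π (src e) = i then 1 else 0) + (if π (tgt e) = i then 1 else 0) := by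
        intro i
        by_cases h4 : π (src e) = i
        · have h5 : ¬ π (tgt e) = i := fun h6 => h (h4.trans h6.symm)
          simp [h4, h5]
        · by_cases h5 : π (tgt e) = i <;> simp [h4, h5]
      rw [sum_congr rfl fun i _ => h3 i, sum_add_distrib]
      simp
  have low : ∀ i : Fin p, 2 * m ≤ (univ.filter (fun e => (π (src e) = i ∧ π (tgt e) ≠ i) ∨
      (π (src e) ≠ i ∧ π (tgt e) = i))).card := by
    intro i
    have h := hc (univ.filter (fun v => π v = i)) (by
      obtain ⟨v, hv⟩ := hπ i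
      exact ⟨v, by simp [hv]⟩) (by
      intro h
      obtain ⟨j, hj⟩ : ∃ j : Fin p, j ≠ i := by
        by_cases h0 : i.val = 0
        · exact ⟨⟨1, by omega⟩, fun h => by rw [← h] at h0; simp at h0⟩
        · exact ⟨⟨0, by omega⟩, fun h => h0 (by rw [← h])⟩
      obtain ⟨v, hv⟩ := hπ j
      have : v ∈ univ.filter (fun v => π v = i) := by rw [h]; exact mem_univ v
      rw [mem_filter] at this
      exact hj (hv.symm.trans this.2))
    simpa using h
  have tot : p * (2 * m) ≤ 2 * (univ.filter (fun e => π (src e) ≠ π (tgt e))).card := by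
    rw [← key]
    calc p * (2 * m) = ∑ _i : Fin p, 2 * m := by simp
      _ ≤ _ := sum_le_sum fun i _ => low i
  nlinarith

end Pool.Agent.helper11.CFL
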