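import Pool.Agent.helper11.CFL.ZOR
import Pool.Agent.helper11.CFL.Flow

namespace Pool.Agent.helper11.CFL

open Finset Matrix

/-- flows from fractional tree packings, abstract form -/
theorem flowR_of (hZO : ZOR_stmt) (hRD : RD_stmt)
    (V E : Type) [Fintype V] [DecidableEq V] [Nonempty V] [Fintype E] [DecidableEq E]
    (src tgt : E → V) (a₀ b₀ : ℕ) (hb₀ : 0 < b₀) (hab : b₀ ≤ a₀)
    (hp : ∀ (p : ℕ) (π : V → Fin p), Function.Surjective π →
      a₀ * p ≤ b₀ * (univ.filter (fun e => π (src e) ≠ π (tgt e))).card + a₀) :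
    ∃ F : E → ℤ, (∀ e, (a₀ : ℤ) - b₀ ≤ |F e| ∧ |F e| ≤ (a₀ : ℤ) + b₀) ∧
      ∀ v, ∑ e ∈ univ.filter (fun e => src e = v), F e =
        ∑ e ∈ univ.filter (fun e => tgt e = v), F e := by
  classical
  have hbR : (0 : ℝ) < b₀ := by exact_mod_cast hb₀
  have habR : (b₀ : ℝ) ≤ a₀ := by exact_mod_cast hab
  have haR0 : (0 : ℝ) < a₀ := lt_of_lt_of_le hbR habR
  set K : ℝ := (a₀ : ℝ) / b₀ with hK
  have hKpos : 0 < K := div_pos haR0 hbR
  have hKb : (b₀ : ℝ) * K = a₀ := by rw [hK]; field_simp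
  -- divergence of the all-ones function
  set a : V → ℤ := dvz src tgt (fun _ => 1) with ha
  have haR : ∀ v, dv src tgt (fun _ => (1 : ℝ)) v = a v := by
    intro v
    have := dv_cast src tgt (fun _ => (1 : ℤ)) v
    simpa using this
  have hsum : ∑ v, (K * (a v : ℝ)) = 0 := by
    rw [← mul_sum]
    have h1 : ∑ v, (a v : ℝ) = ∑ v, dv src tgt (fun _ => (1 : ℝ)) v :=
      sum_congr rfl fun v _ => (haR v).symm
    rw [h1, sum_dv, mul_zero]
  obtain ⟨z, f, -, hf, hb⟩ := hZO V E src tgt K hKpos (by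
    intro p π hπ
    have h1 : (a₀ : ℝ) * p ≤ b₀ * ((univ.filter (fun e => π (src e) ≠ π (tgt e))).card : ℝ)
        + a₀ := by exact_mod_cast hp p π hπ
    have h2 : (a₀ : ℝ) * p / b₀ ≤
        (b₀ * ((univ.filter (fun e => π (src e) ≠ π (tgt e))).card : ℝ) + a₀) / b₀ :=
      div_le_div_of_nonneg_right h1 hbR.le
    have h3 : (a₀ : ℝ) * p / b₀ = K * p := by rw [hK]; ring
    have h4 : (b₀ * ((univ.filter (fun e => π (src e) ≠ π (tgt e))).card : ℝ) + a₀) / b₀ =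
        ((univ.filter (fun e => π (src e) ≠ π (tgt e))).card : ℝ) + K := by
      rw [hK, add_div, mul_div_cancel_left₀ _ hbR.ne']
    rw [h3, h4] at h2
    exact h2) (fun v => K * (a v : ℝ)) hsum
  have hf' : ∀ v, dv src tgt f v = K * ((a v : ℝ) + 2 * z v) := by
    intro v
    rw [hf v]
    ring
  have hfb : ∀ e, -1 ≤ f e ∧ f e ≤ 1 := fun e => abs_le.mp (hb e)
  -- orientation
  obtain ⟨y, hy1, hy2⟩ := hRD V E src tgt (fun e => (1 / 2) * (K⁻¹ * f e + 1)) (by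
    intro v
    refine ⟨a v + z v, ?_⟩
    rw [dv_smul, dv_add, dv_smul, hf', haR]
    rw [← mul_assoc, inv_mul_cancel₀ hKpos.ne']
    push_cast
    ring)
  have hKi : 0 < K⁻¹ := inv_pos.mpr hKpos
  have hKi1 : K⁻¹ ≤ 1 := by
    apply inv_le_one_of_one_le₀
    rw [hK, le_div_iff₀ hbR]
    linarith
  have hy : ∀ e, y e = 0 ∨ y e = 1 := by
    intro e
    obtain ⟨h1, h2⟩ := hy1 e
    obtain ⟨h3, h4⟩ := hfb e
    have h5 : 0 ≤ (1 / 2) * (K⁻¹ * f e + 1) := by nlinarith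
    have h6 : (1 / 2) * (K⁻¹ * f e + 1) ≤ 1 := by nlinarith
    have h7 : (0 : ℤ) ≤ ⌊(1 / 2) * (K⁻¹ * f e + 1)⌋ := Int.floor_nonneg.mpr h5
    have h8 : ⌈(1 / 2) * (K⁻¹ * f e + 1)⌉ ≤ (1 : ℤ) := by
      apply Int.ceil_le.mpr
      simpa using h6
    omega
  have hdy : ∀ v, dv src tgt (fun e => (y e : ℝ)) v = (a v : ℝ) + z v := by
    intro v
    rw [hy2 v, dv_smul, dv_add, dv_smul, hf', haR]
    rw [← mul_assoc, inv_mul_cancel₀ hKpos.ne']
    ring
  -- the correction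
  obtain ⟨g, hg1, hg2⟩ := hRD V E src tgt (fun e => (-(b₀ : ℝ)) * f e) (by
    intro v
    refine ⟨-(a₀ * (a v + 2 * z v)), ?_⟩
    rw [dv_smul, hf']
    push_cast
    rw [← hKb]
    ring)
  have hg : ∀ e, -(b₀ : ℤ) ≤ g e ∧ g e ≤ b₀ := by
    intro e
    obtain ⟨h1, h2⟩ := hg1 e
    obtain ⟨h3, h4⟩ := hfb e
    have h7 : (-(b₀ : ℤ)) ≤ ⌊(-(b₀ : ℝ)) * f e⌋ := by
      apply Int.le_floor.mpr
      push_cast
      nlinarith
    have h8 : ⌈(-(b₀ : ℝ)) * f e⌉ ≤ (b₀ : ℤ) := by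
      apply Int.ceil_le.mpr
      push_cast
      nlinarith
    omega
  have hdg : ∀ v, dv src tgt (fun e => (g e : ℝ)) v = - ((a₀ : ℝ) * ((a v : ℝ) + 2 * z v)) := by
    intro v
    rw [hg2 v, dv_smul, hf', ← hKb]
    ring
  refine ⟨fun e => a₀ * (2 * y e - 1) + g e, fun e => ?_, fun v => ?_⟩
  · have hb0 : (0 : ℤ) ≤ b₀ := Int.natCast_nonneg b₀
    have hab' : (b₀ : ℤ) ≤ a₀ := by exact_mod_cast hab
    obtain ⟨h1, h2⟩ := hg e
    show (a₀ : ℤ) - b₀ ≤ |(a₀ : ℤ) * (2 * y e - 1) + g e| ∧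
      |(a₀ : ℤ) * (2 * y e - 1) + g e| ≤ (a₀ : ℤ) + b₀
    rcases hy e with h | h
    · rw [h]
      have h9 : (a₀ : ℤ) * (2 * 0 - 1) + g e = -((a₀ : ℤ) - g e) := by ring
      rw [h9, abs_neg, abs_of_nonneg (by linarith)]
      constructor <;> linarith
    · rw [h]
      have h9 : (a₀ : ℤ) * (2 * 1 - 1) + g e = ((a₀ : ℤ) + g e) := by ring
      rw [h9, abs_of_nonneg (by linarith)]
      constructor <;> linarith
  · have h10 : (dvz src tgt (fun e => (a₀ : ℤ) * (2 * y e - 1) + g e) v : ℝ) = 0 := by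
      rw [← dv_cast]
      have h11 : (fun e => (((a₀ : ℤ) * (2 * y e - 1) + g e : ℤ) : ℝ)) =
          fun e => (2 * (a₀ : ℝ)) * (y e : ℝ) + ((-(a₀ : ℝ)) * (fun _ => (1 : ℝ)) e
            + (g e : ℝ)) := by
        funext e
        push_cast
        ring
      rw [h11, dv_add, dv_smul, dv_add, dv_smul, hdy, haR, hdg]
      ring
    have h12 : dvz src tgt (fun e => (a₀ : ℤ) * (2 * y e - 1) + g e) v = 0 := by
      exact_mod_cast h10
    unfold dvz at h12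
    linarith

end Pool.Agent.helper11.CFL
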