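import Pool.Agent.helper11.CFL.ZO
import Pool.Agent.helper11.CFL.Flow

namespace Pool.Agent.helper11.CFL

open Finset Matrix

/-- the final statement -/
def FIN_stmt : Prop :=
  ∀ k : ℕ, 0 < k → ∀ n m : ℕ, ∀ ends : Fin m → Fin n × Fin n,
    ((∀ (p : ℕ) (π : Fin n → Fin p), Function.Surjective π →
        (k + 1) * p ≤ (Finset.univ.filter
          (fun e : Fin m => π (ends e).1 ≠ π (ends e).2)).card + (k + 1)) ∨
      (∀ S : Finset (Fin n), S.Nonempty → S ≠ Finset.univ →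
        2 * k + 2 ≤ (Finset.univ.filter (fun e : Fin m =>
          ((ends e).1 ∈ S ∧ (ends e).2 ∉ S) ∨ ((ends e).1 ∉ S ∧ (ends e).2 ∈ S))).card)) →
    ∃ f : Fin m → ℤ,
      (∀ e, (k : ℤ) ≤ |f e| ∧ |f e| ≤ (k : ℤ) + 2) ∧
      ∀ v : Fin n,
        ∑ e ∈ Finset.univ.filter (fun e : Fin m => (ends e).1 = v), f e =
        ∑ e ∈ Finset.univ.filter (fun e : Fin m => (ends e).2 = v), f e

theorem fin_of (hZO : ZO_stmt) (hRD : RD_stmt) : FIN_stmt := by
  intro k hk n m ends h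
  rcases Nat.eq_zero_or_pos n with hn | hn
  · subst hn
    have hm : IsEmpty (Fin m) := ⟨fun e => (ends e).1.elim0⟩
    exact ⟨fun _ => 0, fun e => hm.elim e, fun v => v.elim0⟩
  have : Nonempty (Fin n) := ⟨⟨0, hn⟩⟩
  refine flow_of hZO hRD (Fin n) (Fin m) (fun e => (ends e).1) (fun e => (ends e).2) k ?_
  rcases h with h | h
  · exact h
  · exact part_of_conn (Fin n) (Fin m) (fun e => (ends e).1) (fun e => (ends e).2) (k + 1)
      (fun S hS hS' => by have := h S hS hS'; simpa [mul_add] using this)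

end Pool.Agent.helper11.CFL
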