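import Mathlib

/-!
# CFL : flows from tree packings (MP_95f808), spec of the rows `cf...`

Namespace `Pool.Agent.helper11.CFL`.  A multigraph is a pair `src tgt : E → V` (loops allowed).
`inc src tgt e` is the incidence vector of the edge `e`, `dv` the divergence of a real function on
the edges, `Strong src tgt w` says that the weight of the edges crossing any partition into `p`
classes is at least `p - 1`, `Mat c` is the weighted Laplacian plus the all ones matrix, `lev c e`
is the leverage score `c e * R_eff(e)`, `Spans T` says that `T` is (the edge set of) a spanning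
tree.

MATHEMATICAL PROOF (all rows are short).
TR  (Kruskal / contraction).  Prove by induction on `q` the statement for surjections
    `π : V → Fin q`, `0 < q`: there is `T : Finset E` with `T.card + 1 = q`, every `e ∈ T` crosses
    `π`, every `x : Fin q → ℝ` with `x (π (src e)) = x (π (tgt e))` for `e ∈ T` is constant, and
    `∑ e ∈ T, l e ≤ ∑ e crossing π, w e * l e`, for all `l ≥ 0`.
    Step: some edge crosses `π` (Strong, `q ≥ 2`); let `e₀` be a crossing edge with `l e₀ = m`
    minimal; merge the classes of its ends (compose `π` with a surjection `Fin (q+1) → Fin q`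
    identifying exactly these two points); apply the induction hypothesis to `l - m` (truncate at 0
    outside crossing edges) and add `e₀`;
    `m * (q - 1) ≤ m * ∑ crossing w` is Strong for `π`.  Finally `π = Fintype.equivFin V`.
DT  Let `B` be the square matrix with columns `inc e` (`e ∈ T`) and the all ones vector, `D` the
    diagonal matrix of the `c e` and `1`.  `B D Bᵀ` has determinant `det B ^ 2 * ∏ c e`, `det B` is a
    nonzero integer (nonzero as `x ᵥ* B = 0` forces `x` constant with sum zero), and adding the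
    positive semidefinite rank one matrices of the other edges does not decrease the determinant
    (matrix determinant lemma `Matrix.det_add_replicateCol_mul_replicateRow`, positive definite
    inverse).
PD  `x ⬝ᵥ Mat c *ᵥ x = ∑ e, c e * (x (src e) - x (tgt e)) ^ 2 + (∑ v, x v) ^ 2`.
MN  Minimise `Ψ c = det (Mat c) / ∏ (c e) ^ (w e + ε)` over `0 < c ≤ 1`.  By the lower bound
    `Ψ c ≥ ∏ (c e) ^ (-ε)`, which is larger than `Ψ 1` as soon as some `c e < η`; so the minimum over
    the compact box `[η, 1]^E` is the minimum over `(0,1]^E`.  At the minimum replace `c e` by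
    `(1 - δ) c e`: `det` is multiplied by `1 - δ * lev c e` (matrix determinant lemma), hence
    `(1 - δ) ^ (w e + ε) ≤ 1 - δ * lev c e` for `0 < δ < 1`; `δ → 0` gives `lev c e ≤ w e + ε`.
VO  Let `N = (Mat c)⁻¹`, `q t = t ⬝ᵥ N *ᵥ t`.  Take the minimum of `q` over all
    `t = β + 2 z`, `z : V → ℤ`, `∑ z = 0` (finitely many below any level as `q` is positive
    definite).  Comparing `t` with `t ∓ 2 inc e`: `|inc e ⬝ᵥ N *ᵥ t| ≤ inc e ⬝ᵥ N *ᵥ inc e`.
    Put `f e = c e * (inc e ⬝ᵥ N *ᵥ t)`; then `dv f = t` since `N *ᵥ t` has sum zero.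
LM  compactness (`ε → 0`): the set of `f` in the box `|f e| ≤ w e + ε` with `dv f = β + 2 z` for
    some integer `z` with sum zero is compact (the set of integer vectors is closed); nested
    nonempty compact sets.
RD  rounding of a real flow with integer divergence: choose among all `g'` with
    `⌊g e⌋ ≤ g' e ≤ ⌈g e⌉` and `dv g' = dv g` one with the fewest non integer values.  If a non
    integer value exists then there is a nonzero `h` supported on the non integer edges with
    `dv h = 0`: a loop alone, or else every vertex meeting a non integer edge meets at least two of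
    them (the divergence at the vertex is an integer), so the number of such edges is at least the
    number of such vertices, while the divergence has rank at most (number of such vertices) - 1.
    Move along `h` until the first value becomes an integer.
-/

namespace Pool.Agent.helper11.CFL

open Finset Matrix

/-- incidence vector of an edge: `+1` at the source, `-1` at the target, zero for a loop. -/
def inc {V E : Type} [DecidableEq V] (src tgt : E → V) (e : E) (v : V) : ℝ :=
  (if src e = v then 1 else 0) - (if tgt e = v then 1 else 0)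

/-- divergence of a real function on the edges. -/
def dv {V E : Type} [DecidableEq V] [Fintype E] (src tgt : E → V) (f : E → ℝ) (v : V) : ℝ :=
  ∑ e, f e * inc src tgt e v

/-- the weights `w` give every partition into `p` classes crossing weight at least `p - 1`. -/
def Strong {V E : Type} [Fintype E] (src tgt : E → V) (w : E → ℝ) : Prop :=
  ∀ (p : ℕ) (π : V → Fin p), Function.Surjective π →
    (p : ℝ) ≤ ∑ e ∈ univ.filter (fun e => π (src e) ≠ π (tgt e)), w e + 1

/-- weighted Laplacian plus the all ones matrix. -/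
def Mat {V E : Type} [DecidableEq V] [Fintype E] (src tgt : E → V) (c : E → ℝ) : Matrix V V ℝ :=
  fun u v => ∑ e, c e * inc src tgt e u * inc src tgt e v + 1

/-- leverage score of an edge. -/
noncomputable def lev {V E : Type} [Fintype V] [DecidableEq V] [Fintype E] (src tgt : E → V)
    (c : E → ℝ) (e : E) : ℝ :=
  c e * (inc src tgt e ⬝ᵥ ((Mat src tgt c)⁻¹ *ᵥ inc src tgt e))

/-- `T` is a spanning tree. -/
def Spans {V E : Type} [Fintype V] (src tgt : E → V) (T : Finset E) : Prop :=
  T.card + 1 = Fintype.card V ∧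
    ∀ x : V → ℝ, (∀ e ∈ T, x (src e) = x (tgt e)) → ∀ u v, x u = x v

/-- TR : minimum spanning tree bound. -/
def TR_stmt : Prop :=
  ∀ (V E : Type) [Fintype V] [DecidableEq V] [Nonempty V] [Fintype E] [DecidableEq E]
    (src tgt : E → V) (w : E → ℝ), (∀ e, 0 ≤ w e) → Strong src tgt w →
    ∀ l : E → ℝ, (∀ e, 0 ≤ l e) →
      ∃ T : Finset E, Spans src tgt T ∧ ∑ e ∈ T, l e ≤ ∑ e, w e * l e

/-- DT : determinant lower bound. -/
def DT_stmt : Prop :=
  ∀ (V E : Type) [Fintype V] [DecidableEq V] [Nonempty V] [Fintype E] [DecidableEq E]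
    (src tgt : E → V) (T : Finset E), Spans src tgt T →
    ∀ c : E → ℝ, (∀ e, 0 < c e) → ∏ e ∈ T, c e ≤ (Mat src tgt c).det

/-- PD : positive definiteness. -/
def PD_stmt : Prop :=
  ∀ (V E : Type) [Fintype V] [DecidableEq V] [Nonempty V] [Fintype E] [DecidableEq E]
    (src tgt : E → V) (T : Finset E), Spans src tgt T →
    ∀ c : E → ℝ, (∀ e, 0 < c e) → (Mat src tgt c).PosDef

/-- MN : conductances with leverage scores at most `w + ε`. -/
def MN_stmt : Prop :=
  ∀ (V E : Type) [Fintype V] [DecidableEq V] [Nonempty V] [Fintype E] [DecidableEq E]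
    (src tgt : E → V) (w : E → ℝ), (∀ e, 0 ≤ w e) →
    (∀ c : E → ℝ, (∀ e, 0 < c e) → (Mat src tgt c).PosDef) →
    (∀ c : E → ℝ, (∀ e, 0 < c e) → (∀ e, c e ≤ 1) →
      ∏ e, (c e) ^ (w e) ≤ (Mat src tgt c).det) →
    ∀ ε : ℝ, 0 < ε → ∃ c : E → ℝ, (∀ e, 0 < c e) ∧ ∀ e, lev src tgt c e ≤ w e + ε

/-- VO : the shortest vector of a coset has small electrical flow. -/
def VO_stmt : Prop :=
  ∀ (V E : Type) [Fintype V] [DecidableEq V] [Nonempty V] [Fintype E] [DecidableEq E]
    (src tgt : E → V) (c : E → ℝ), (∀ e, 0 < c e) → (Mat src tgt c).PosDef →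
    ∀ β : V → ℝ, ∑ v, β v = 0 →
      ∃ (z : V → ℤ) (f : E → ℝ), ∑ v, z v = 0 ∧ (∀ v, dv src tgt f v = β v + 2 * (z v : ℝ)) ∧
        ∀ e, |f e| ≤ lev src tgt c e

/-- LM : the limit `ε → 0`. -/
def LM_stmt : Prop :=
  ∀ (V E : Type) [Fintype V] [DecidableEq V] [Nonempty V] [Fintype E] [DecidableEq E]
    (src tgt : E → V) (w : E → ℝ) (β : V → ℝ),
    (∀ ε : ℝ, 0 < ε → ∃ (z : V → ℤ) (f : E → ℝ), ∑ v, z v = 0 ∧
      (∀ v, dv src tgt f v = β v + 2 * (z v : ℝ)) ∧ ∀ e, |f e| ≤ w e + ε) →
    ∃ (z : V → ℤ) (f : E → ℝ), ∑ v, z v = 0 ∧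
      (∀ v, dv src tgt f v = β v + 2 * (z v : ℝ)) ∧ ∀ e, |f e| ≤ w e

/-- RD : rounding of a real flow with integer divergence. -/
def RD_stmt : Prop :=
  ∀ (V E : Type) [Fintype V] [DecidableEq V] [Fintype E] [DecidableEq E]
    (src tgt : E → V) (g : E → ℝ), (∀ v, ∃ a : ℤ, dv src tgt g v = a) →
    ∃ g' : E → ℤ, (∀ e, ⌊g e⌋ ≤ g' e ∧ g' e ≤ ⌈g e⌉) ∧
      ∀ v, dv src tgt (fun e => (g' e : ℝ)) v = dv src tgt g v

/-- MAIN (assembly): every coset of `2m ℤ₀^V` contains the divergence of a real function with
values in `[-1,1]`, when `m (|P| - 1)` edges cross every partition `P`. -/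
def ZO_stmt : Prop :=
  ∀ (V E : Type) [Fintype V] [DecidableEq V] [Nonempty V] [Fintype E] [DecidableEq E]
    (src tgt : E → V) (m : ℕ), 0 < m →
    (∀ (p : ℕ) (π : V → Fin p), Function.Surjective π →
      m * p ≤ (univ.filter (fun e => π (src e) ≠ π (tgt e))).card + m) →
    ∀ β : V → ℝ, ∑ v, β v = 0 →
      ∃ (z : V → ℤ) (f : E → ℝ), ∑ v, z v = 0 ∧
        (∀ v, dv src tgt f v = β v + 2 * m * (z v : ℝ)) ∧ ∀ e, |f e| ≤ 1

end Pool.Agent.helper11.CFL
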