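import Pool.Agent.helper11.CFL.Spec

namespace Pool.Agent.helper11.CFL

open Finset Matrix

theorem ZO_of (hTR : TR_stmt) (hDT : DT_stmt) (hPD : PD_stmt) (hMN : MN_stmt) (hVO : VO_stmt)
    (hLM : LM_stmt) : ZO_stmt := by
  intro V E _ _ _ _ _ src tgt m hm hpart β hβ
  classical
  have hmr : (0 : ℝ) < m := by exact_mod_cast hm
  set w : E → ℝ := fun _ => 1 / (m : ℝ) with hw
  have hw0 : ∀ e, 0 ≤ w e := fun e => by simp only [hw]; positivity
  have hS : Strong src tgt w := by
    intro p π hπ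
    have h1 := hpart p π hπ
    have h2 : (m : ℝ) * p ≤ ((univ.filter (fun e => π (src e) ≠ π (tgt e))).card : ℝ) + m := by
      exact_mod_cast h1
    simp only [hw, sum_const, nsmul_eq_mul]
    rw [mul_one_div, div_add_one hmr.ne', le_div_iff₀ hmr]
    linarith
  -- spanning tree
  obtain ⟨T0, hT0, -⟩ := hTR V E src tgt w hw0 hS (fun _ => 0) (fun _ => le_rfl)
  have hpd : ∀ c : E → ℝ, (∀ e, 0 < c e) → (Mat src tgt c).PosDef :=
    fun c hc => hPD V E src tgt T0 hT0 c hc
  have hlow : ∀ c : E → ℝ, (∀ e, 0 < c e) → (∀ e, c e ≤ 1) →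
      ∏ e, (c e) ^ (w e) ≤ (Mat src tgt c).det := by
    intro c hc hc1
    obtain ⟨T, hT, hle⟩ := hTR V E src tgt w hw0 hS (fun e => - Real.log (c e))
      (fun e => by have := Real.log_nonpos (hc e).le (hc1 e); simpa using this)
    refine le_trans ?_ (hDT V E src tgt T hT c hc)
    have h1 : ∏ e, (c e) ^ (w e) = Real.exp (∑ e, w e * Real.log (c e)) := by
      rw [Real.exp_sum]
      refine prod_congr rfl fun e _ => ?_
      rw [Real.rpow_def_of_pos (hc e), mul_comm]
    have h2 : ∏ e ∈ T, c e = Real.exp (∑ e ∈ T, Real.log (c e)) := by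
      rw [Real.exp_sum]
      refine prod_congr rfl fun e _ => ?_
      rw [Real.exp_log (hc e)]
    rw [h1, h2]
    apply Real.exp_le_exp.mpr
    simp only [mul_neg, sum_neg_distrib] at hle
    linarith
  have hβ' : ∑ v, β v / m = 0 := by rw [← sum_div, hβ, zero_div]
  obtain ⟨z, f, hz, hf, hb⟩ := hLM V E src tgt w (fun v => β v / m) (by
    intro ε hε
    obtain ⟨c, hc, hl⟩ := hMN V E src tgt w hw0 hpd hlow ε hε
    obtain ⟨z, f, hz, hf, hb⟩ := hVO V E src tgt c hc (hpd c hc) (fun v => β v / m) hβ'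
    exact ⟨z, f, hz, hf, fun e => (hb e).trans (hl e)⟩)
  refine ⟨z, fun e => m * f e, hz, fun v => ?_, fun e => ?_⟩
  · have h := hf v
    simp only [dv] at h ⊢
    have h3 : ∑ e, (m : ℝ) * f e * inc src tgt e v = m * ∑ e, f e * inc src tgt e v := by
      rw [mul_sum]
      exact sum_congr rfl fun e _ => by ring
    rw [h3, h]
    field_simp
  · have h := hb e
    rw [abs_mul, abs_of_pos hmr]
    calc (m : ℝ) * |f e| ≤ m * (1 / m) := by
          exact mul_le_mul_of_nonneg_left h hmr.le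
      _ = 1 := by field_simp

end Pool.Agent.helper11.CFL
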